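import Pool.Agent.H48.ER.Targets

set_option autoImplicit false

open Pool.Agent.H48.ER

namespace Pool.Agent.H55.ER

/-- chordless paths under an injective map -/
theorem ip_IND {V W : Type} (G : SimpleGraph V) (e : W → V) (he : Function.Injective e) (n : ℕ)
    (x y : W) (R : Set W) (h : IP (G.comap e) n x y R) : IP G n (e x) (e y) (e '' R) := by
  obtain ⟨g, g0, gn, gi, gadj, hR⟩ := h
  refine ⟨fun i => e (g i), congrArg e g0, congrArg e gn, ?_, ?_, ?_⟩
  · intro i j hi hj hij
    exact gi i j hi hj (he hij)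
  · intro i j hi hj
    exact gadj i j hi hj
  · rw [hR]
    ext v
    constructor
    · rintro ⟨_, ⟨i, hi, rfl⟩, rfl⟩
      exact ⟨i, hi, rfl⟩
    · rintro ⟨i, hi, rfl⟩
      exact ⟨g i, ⟨i, hi, rfl⟩, rfl⟩

theorem pf_IND : T_IND := by
  intro V W _ _ G e h1 h2 h3
  have he : Function.Injective e := e.injective
  refine ⟨?_, ?_, ?_⟩
  · intro n u v c R hR hn hc hu hv hw
    refine h1 n (e u) (e v) (e c) (e '' R) (ip_IND G e he n u v R hR) hn ?_ hu hv ?_
    · rintro ⟨d, hd, hdc⟩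
      rw [he hdc] at hd
      exact hc hd
    · rintro _ ⟨w, hwR, rfl⟩ hcw
      rcases hw w hwR hcw with h | h
      · exact Or.inl (congrArg e h)
      · exact Or.inr (congrArg e h)
  · intro a b n P hP
    refine h2 (fun i => e (a i)) (fun i => e (b i)) n (fun i => e '' P i) ⟨?_, ?_, ?_, ?_⟩
    · intro i
      exact ip_IND G e he _ _ _ _ (hP.ip i)
    · exact hP.pos
    · intro i j hij
      rw [Set.disjoint_left]
      rintro _ ⟨u, hu, rfl⟩ ⟨v, hv, hvu⟩
      rw [he hvu] at hv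
      exact Set.disjoint_left.1 (hP.dis i j hij) hu hv
    · rintro i j hij _ ⟨u, hu, rfl⟩ _ ⟨v, hv, rfl⟩
      have h4 := hP.adj i j hij u hu v hv
      rw [he.eq_iff, he.eq_iff, he.eq_iff, he.eq_iff]
      exact h4
  · obtain ⟨H, f, hGH, hH⟩ := h3
    refine ⟨H.comap e, fun w => f (e w), ?_, ?_, ?_, ?_⟩
    · intro u v huv
      exact hGH huv
    · exact hH.inj.comp he
    · intro v u hu w hw huw
      exact hH.cl (e v) (e u) ⟨hu.1, hu.2⟩ (e w) ⟨hw.1, hw.2⟩ fun h => huw (he h)
    · intro v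
      have h4 : (e '' upper (H.comap e) (fun w => f (e w)) v).ncard ≤ 3 := by
        refine le_trans (Set.ncard_le_ncard ?_ (Set.toFinite _)) (hH.card (e v))
        rintro _ ⟨u, hu, rfl⟩
        exact ⟨hu.1, hu.2⟩
      rwa [Set.ncard_image_of_injective _ he] at h4

end Pool.Agent.H55.ER
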