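import Pool.Agent.H48.ER.Targets

set_option autoImplicit false

open Pool.Agent.H48.ER

namespace Pool.Agent.H55.ER

/-- chordless paths under an injective map -/
theorem ip_HCT {V W : Type} (G : SimpleGraph V) (e : W → V) (he : Function.Injective e) (n : ℕ)
    (x y : W) (R : Set W) (h : IP (G.comap e) n x y R) : IP G n (e x) (e y) (e '' R) := by
  obtain ⟨g, g0, gn, gi, gadj, hR⟩ := h
  refine ⟨fun i => e (g i), congrArg e g0, congrArg e gn, ?_, ?_, ?_⟩
  · intro i j hi hj hij
    exact gi i j hi hj (he hij)
  · intro i j hi hj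
    exact gadj i j hi hj
  · rw [hR]
    ext v
    constructor
    · rintro ⟨_, ⟨i, hi, rfl⟩, rfl⟩
      exact ⟨i, hi, rfl⟩
    · rintro ⟨i, hi, rfl⟩
      exact ⟨g i, ⟨i, hi, rfl⟩, rfl⟩

/-- the contracted graph -/
theorem ctr_HCT {V : Type} (G : SimpleGraph V) (k : ℕ) (e : Fin (k + 1) → V)
    (he : Function.Injective e) (x y : Fin (k + 1)) (hxy : x ≠ y) (φ : Fin (k + 1) → Fin k)
    (hφ : ∀ u, y.succAbove (φ u) = if u = y then x else u) :
    SimpleGraph.fromRel (fun a b : Fin k => ∃ u v : Fin (k + 1), φ u = a ∧ φ v = b ∧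
      (G.comap e).Adj u v) = (ctr G (e x) (e y)).comap (e ∘ y.succAbove) := by
  have hs : ∀ u, u ≠ y → y.succAbove (φ u) = u := fun u hu => by rw [hφ, if_neg hu]
  have hy : y.succAbove (φ y) = x := by rw [hφ, if_pos rfl]
  have hne : ∀ a : Fin k, e (y.succAbove a) ≠ e y := fun a h => Fin.succAbove_ne y a (he h)
  have hinv : ∀ a : Fin k, φ (y.succAbove a) = a := fun a =>
    Fin.succAbove_right_injective (hs _ (Fin.succAbove_ne y a))
  ext a b
  rw [SimpleGraph.fromRel_adj]
  have hcomm : ∀ a b : Fin k, (∃ u v : Fin (k + 1), φ u = a ∧ φ v = b ∧ (G.comap e).Adj u v) →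
      (∃ u v : Fin (k + 1), φ u = b ∧ φ v = a ∧ (G.comap e).Adj u v) := by
    rintro a b ⟨u, v, h1, h2, h3⟩
    exact ⟨v, u, h2, h1, h3.symm⟩
  constructor
  · rintro ⟨hab, h⟩
    have h' : ∃ u v : Fin (k + 1), φ u = a ∧ φ v = b ∧ (G.comap e).Adj u v := by
      rcases h with h | h
      · exact h
      · exact hcomm b a h
    obtain ⟨u, v, rfl, rfl, h3⟩ := h'
    change e (y.succAbove (φ u)) ≠ e (y.succAbove (φ v)) ∧ e (y.succAbove (φ u)) ≠ e y ∧
      e (y.succAbove (φ v)) ≠ e y ∧ (G.Adj (e (y.succAbove (φ u))) (e (y.succAbove (φ v))) ∨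
        (e (y.succAbove (φ u)) = e x ∧ G.Adj (e y) (e (y.succAbove (φ v)))) ∨
        (e (y.succAbove (φ v)) = e x ∧ G.Adj (e (y.succAbove (φ u))) (e y)))
    have h3' : G.Adj (e u) (e v) := h3
    refine ⟨fun h4 => hab (Fin.succAbove_right_injective (he h4)), hne _, hne _, ?_⟩
    by_cases hu : u = y
    · by_cases hv : v = y
      · exfalso
        rw [hu, hv] at h3'
        exact G.loopless.irrefl _ h3'
      · right
        left
        rw [hu, hy, hs v hv]
        rw [hu] at h3'
        exact ⟨rfl, h3'⟩
    · by_cases hv : v = y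
      · right
        right
        rw [hv, hy, hs u hu]
        rw [hv] at h3'
        exact ⟨rfl, h3'⟩
      · left
        rw [hs u hu, hs v hv]
        exact h3'
  · intro h
    have h' : e (y.succAbove a) ≠ e (y.succAbove b) ∧ e (y.succAbove a) ≠ e y ∧
      e (y.succAbove b) ≠ e y ∧ (G.Adj (e (y.succAbove a)) (e (y.succAbove b)) ∨
        (e (y.succAbove a) = e x ∧ G.Adj (e y) (e (y.succAbove b))) ∨
        (e (y.succAbove b) = e x ∧ G.Adj (e (y.succAbove a)) (e y))) := h
    obtain ⟨h1, -, -, h4⟩ := h'
    refine ⟨fun hab => h1 (by rw [hab]), Or.inl ?_⟩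
    rcases h4 with h4 | ⟨h4, h5⟩ | ⟨h4, h5⟩
    · exact ⟨_, _, hinv a, hinv b, h4⟩
    · refine ⟨y, _, ?_, hinv b, h5⟩
      apply Fin.succAbove_right_injective (p := y)
      rw [hy]
      exact (he h4).symm
    · refine ⟨_, y, hinv a, ?_, h5⟩
      apply Fin.succAbove_right_injective (p := y)
      rw [hy]
      exact (he h4).symm

theorem key_HCT (hWLK : T_WLK) {V : Type} (G : SimpleGraph V) (S : Set V) (h : CT G S)
    (P : (k : ℕ) → SimpleGraph (Fin k) → Prop) (hP : Clo P) :
    ∀ (k : ℕ) (e : Fin k → V), Function.Injective e → Set.range e = S → P k (G.comap e) := by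
  induction h with
  | clique G S h =>
    intro k e he hS
    have h1 : G.comap e = ⊤ := by
      ext a b
      rw [SimpleGraph.top_adj]
      constructor
      · intro hab
        exact hab.ne
      · intro hab
        exact h _ (hS ▸ ⟨a, rfl⟩) _ (hS ▸ ⟨b, rfl⟩) fun h2 => hab (he h2)
    rw [h1]
    exact hP.1 k
  | step G S p q hp hq hev hc ih =>
    intro k e he hS
    rw [← hS] at hp hq
    obtain ⟨x, rfl⟩ := hp
    obtain ⟨y, rfl⟩ := hq
    rcases k with _ | k
    · exact x.elim0
    · have hxy : x ≠ y := fun h1 => hev.1 (by rw [h1])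
      have hex : ∀ u : Fin (k + 1), ∃ z : Fin k, y.succAbove z = if u = y then x else u := by
        intro u
        split_ifs with hu
        · exact Fin.exists_succAbove_eq hxy
        · exact Fin.exists_succAbove_eq hu
      choose φ hφ using hex
      refine hP.2 k (G.comap e) x y φ hxy hev.2.1 ?_ ?_ ?_ ?_
      · intro w hw hch
        have h1 := (hWLK (Fin (k + 1)) (G.comap e) x y).1 w hw hch
        have h2 := hev.2.2 _ _ (ip_HCT G e he _ _ _ _ h1)
        exact Nat.even_iff.1 h2
      · intro z
        refine ⟨y.succAbove z, ?_⟩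
        apply Fin.succAbove_right_injective (p := y)
        rw [hφ, if_neg (Fin.succAbove_ne y z)]
      · intro u v
        constructor
        · intro h1
          have h2 := congrArg y.succAbove h1
          rw [hφ, hφ] at h2
          by_cases hu : u = y
          · by_cases hv : v = y
            · left
              rw [hu, hv]
            · rw [if_pos hu, if_neg hv] at h2
              right
              right
              exact ⟨hu, h2.symm⟩
          · by_cases hv : v = y
            · rw [if_neg hu, if_pos hv] at h2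
              right
              left
              exact ⟨h2, hv⟩
            · rw [if_neg hu, if_neg hv] at h2
              left
              exact h2
        · intro h1
          apply Fin.succAbove_right_injective (p := y)
          rw [hφ, hφ]
          rcases h1 with h1 | ⟨h1, h2⟩ | ⟨h1, h2⟩
          · rw [h1]
          · rw [h1, h2, if_neg hxy, if_pos rfl]
          · rw [h1, h2, if_pos rfl, if_neg hxy]
      · rw [ctr_HCT G k e he x y hxy φ hφ]
        refine ih k (e ∘ y.succAbove) (he.comp Fin.succAbove_right_injective) ?_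
        rw [← hS]
        ext v
        constructor
        · rintro ⟨z, rfl⟩
          refine ⟨⟨_, rfl⟩, ?_⟩
          intro h1
          exact Fin.succAbove_ne y z (he h1)
        · rintro ⟨⟨u, rfl⟩, hu⟩
          have hu' : u ≠ y := by
            rintro rfl
            exact hu rfl
          obtain ⟨z, hz⟩ := Fin.exists_succAbove_eq hu'
          exact ⟨z, congrArg e hz⟩

theorem pf_HCT (hWLK : T_WLK) : T_HCT := by
  intro m G h P hP
  have h1 := key_HCT hWLK G Set.univ h P hP m id Function.injective_id Set.range_id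
  rwa [SimpleGraph.comap_id] at h1

end Pool.Agent.H55.ER
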