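import Pool.Agent.H48.ER.Targets

set_option autoImplicit false

open Pool.Agent.H48.ER

namespace Pool.Agent.H55.ER

/-- rooted trees -/
theorem root_TDC {ι : Type} (T : SimpleGraph ι) (hT : T.IsTree) :
    ∃ (r : ι) (π : ι → ι) (δ : ι → ℕ), π r = r ∧ (∀ i, i ≠ r → δ (π i) < δ i) ∧
      ∀ i j, T.Adj i j → (j = π i ∧ i ≠ r) ∨ (i = π j ∧ j ≠ r) := by
  classical
  obtain ⟨r⟩ : Nonempty ι := hT.1.nonempty
  choose P hP hP' using fun i => hT.existsUnique_path i r
  have hun : ∀ i (p : T.Walk i r), p.IsPath → p = P i := fun i p hp => hP' i p hp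
  have hcons : ∀ i (hi : i ≠ r), ∃ h : T.Adj i (P i).snd, P i = SimpleGraph.Walk.cons h
      (P (P i).snd) := by
    intro i hi
    have hnn : ¬ (P i).Nil := SimpleGraph.Walk.not_nil_of_ne hi
    have h1 : SimpleGraph.Walk.cons ((P i).adj_snd hnn) (P i).tail = P i :=
      SimpleGraph.Walk.cons_tail_eq _ hnn
    have h2 : (P i).tail.IsPath := (hP i).tail
    refine ⟨(P i).adj_snd hnn, ?_⟩
    rw [← hun _ _ h2]
    exact h1.symm
  have hnil : P r = SimpleGraph.Walk.nil := (hun r _ SimpleGraph.Walk.IsPath.nil).symm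
  refine ⟨r, fun i => (P i).snd, fun i => (P i).length, ?_, ?_, ?_⟩
  · change (P r).snd = r
    rw [hnil]
    rfl
  · intro i hi
    obtain ⟨h, h1⟩ := hcons i hi
    change (P (P i).snd).length < (P i).length
    have h2 := congrArg SimpleGraph.Walk.length h1
    rw [SimpleGraph.Walk.length_cons] at h2
    omega
  · intro i j hij
    by_cases hj : j ∈ (P i).support
    · left
      have h1 : (P i).takeUntil j hj = SimpleGraph.Walk.cons hij SimpleGraph.Walk.nil := by
        refine (hT.existsUnique_path i j).unique ((hP i).takeUntil hj) ?_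
        rw [SimpleGraph.Walk.cons_isPath_iff]
        refine ⟨SimpleGraph.Walk.IsPath.nil, ?_⟩
        rw [SimpleGraph.Walk.support_nil, List.mem_singleton]
        exact hij.ne
      have h2 := SimpleGraph.Walk.snd_takeUntil hij.ne' (P i) hj
      rw [h1] at h2
      refine ⟨h2, ?_⟩
      rintro rfl
      rw [hnil, SimpleGraph.Walk.support_nil, List.mem_singleton] at hj
      exact hij.ne hj.symm
    · right
      have h1 : SimpleGraph.Walk.cons hij.symm (P i) = P j := by
        refine hun j _ ?_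
        rw [SimpleGraph.Walk.cons_isPath_iff]
        exact ⟨hP i, hj⟩
      refine ⟨?_, ?_⟩
      · change i = (P j).snd
        rw [← h1]
        simp
      · rintro rfl
        exact hj ((P i).end_mem_support)

/-- connected sets of nodes of a rooted tree -/
theorem conn_TDC {ι : Type} (T : SimpleGraph ι) (r : ι) (π : ι → ι) (δ : ι → ℕ)
    (h2 : ∀ i, i ≠ r → δ (π i) < δ i)
    (h3 : ∀ i j, T.Adj i j → (j = π i ∧ i ≠ r) ∨ (i = π j ∧ j ≠ r)) (S : Set ι)
    (hS : (T.induce S).Preconnected) (a : ι) (ha : a ∈ S) (hmin : ∀ i ∈ S, δ a ≤ δ i) :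
    ∀ i ∈ S, ∃ n : ℕ, π^[n] i = a ∧ ∀ m ≤ n, π^[m] i ∈ S := by
  intro i hi
  have key : ∀ x y : S, (T.induce S).Reachable x y →
      (∃ n : ℕ, π^[n] (x : ι) = a ∧ ∀ m ≤ n, π^[m] (x : ι) ∈ S) →
      ∃ n : ℕ, π^[n] (y : ι) = a ∧ ∀ m ≤ n, π^[m] (y : ι) ∈ S := by
    intro x y hxy
    obtain ⟨w⟩ := hxy
    induction w with
    | nil => exact fun h => h
    | cons hadj w ih =>
      rename_i x' y' z'
      intro hx
      apply ih
      obtain ⟨n, hn, hm⟩ := hx
      have hadj' : T.Adj (x' : ι) (y' : ι) := hadj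
      rcases h3 _ _ hadj' with ⟨e1, e2⟩ | ⟨e1, e2⟩
      · rcases n with _ | n
        · exfalso
          have e3 : (x' : ι) = a := hn
          have e4 := h2 _ e2
          rw [← e1] at e4
          have e5 := hmin _ y'.2
          rw [e3] at e4
          omega
        · refine ⟨n, ?_, ?_⟩
          · rw [e1]
            rw [Function.iterate_succ_apply] at hn
            exact hn
          · intro m hmn
            have e3 := hm (m + 1) (by omega)
            rw [Function.iterate_succ_apply, ← e1] at e3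
            exact e3
      · refine ⟨n + 1, ?_, ?_⟩
        · rw [Function.iterate_succ_apply, ← e1]
          exact hn
        · intro m hmn
          rcases m with _ | m
          · exact y'.2
          · rw [Function.iterate_succ_apply, ← e1]
            exact hm m (by omega)
  refine key ⟨a, ha⟩ ⟨i, hi⟩ (hS _ _) ⟨0, rfl, ?_⟩
  intro m hm
  have e1 : m = 0 := by omega
  rw [e1]
  exact ha

/-- Helly property: the bag of the top of `v` contains the neighbours with a higher top -/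
theorem helly_TDC {ι : Type} (T : SimpleGraph ι) (r : ι) (π : ι → ι) (δ : ι → ℕ) (h1 : π r = r)
    (h2 : ∀ i, i ≠ r → δ (π i) < δ i)
    (h3 : ∀ i j, T.Adj i j → (j = π i ∧ i ≠ r) ∨ (i = π j ∧ j ≠ r)) (S S' : Set ι)
    (hS : (T.induce S).Preconnected) (hS' : (T.induce S').Preconnected) (t s : ι) (ht : t ∈ S)
    (hs : s ∈ S') (htm : ∀ i ∈ S, δ t ≤ δ i) (hsm : ∀ i ∈ S', δ s ≤ δ i) (hts : δ s ≤ δ t)
    (i : ι) (hi : i ∈ S) (hi' : i ∈ S') : t ∈ S' := by
  obtain ⟨n, hn, hn'⟩ := conn_TDC T r π δ h2 h3 S hS t ht htm i hi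
  obtain ⟨m, hm, hm'⟩ := conn_TDC T r π δ h2 h3 S' hS' s hs hsm i hi'
  rcases Nat.lt_or_ge m n with h | h
  · obtain ⟨l, rfl⟩ : ∃ l, n = (l + 1) + m := ⟨n - m - 1, by omega⟩
    have e1 : π^[l + 1] s = t := by
      rw [← hn, Function.iterate_add_apply π (l + 1) m i, hm]
    have hle : ∀ (l : ℕ) (x : ι), δ (π^[l] x) ≤ δ x := by
      intro l
      induction l with
      | zero => exact fun x => le_rfl
      | succ l ih =>
        intro x
        rw [Function.iterate_succ_apply]
        refine (ih _).trans ?_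
        by_cases hx : x = r
        · rw [hx, h1]
        · exact (h2 x hx).le
    have hsr : s = r := by
      by_contra hne
      have e2 := h2 s hne
      have e3 := hle l (π s)
      rw [← Function.iterate_succ_apply, e1] at e3
      omega
    have e4 : ∀ l : ℕ, π^[l] r = r := by
      intro l
      induction l with
      | zero => rfl
      | succ l ih => rw [Function.iterate_succ_apply, h1, ih]
    rw [hsr, e4] at e1
    rw [← e1, ← hsr]
    exact hs
  · rw [← hn]
    exact hm' n h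

theorem pf_TDC : T_TDC := by
  intro m G hG
  classical
  obtain ⟨k, T, B, hT, hcard, hv, he, hsub⟩ := hG
  obtain ⟨r, π, δ, h1, h2, h3⟩ := root_TDC T hT
  have htop : ∀ v : Fin m, ∃ t, v ∈ B t ∧ ∀ i, v ∈ B i → δ t ≤ δ i := by
    intro v
    obtain ⟨i0, hi0⟩ := hv v
    obtain ⟨t, ht, ht'⟩ := Finset.exists_min_image (Finset.univ.filter fun i => v ∈ B i) δ
      ⟨i0, Finset.mem_filter.2 ⟨Finset.mem_univ _, hi0⟩⟩
    exact ⟨t, (Finset.mem_filter.1 ht).2, fun i hi =>
      ht' i (Finset.mem_filter.2 ⟨Finset.mem_univ _, hi⟩)⟩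
  choose top htop1 htop2 using htop
  obtain ⟨K, hK⟩ : ∃ K, ∀ i, δ i ≤ K :=
    ⟨∑ i, δ i, fun i => Finset.single_le_sum (fun _ _ => Nat.zero_le _) (Finset.mem_univ i)⟩
  obtain ⟨H, hH⟩ : ∃ H : SimpleGraph (Fin m), ∀ u v, H.Adj u v ↔ u ≠ v ∧ ∃ i, u ∈ B i ∧ v ∈ B i :=
    ⟨{ Adj := fun u v => u ≠ v ∧ ∃ i, u ∈ B i ∧ v ∈ B i
       symm := ⟨fun _ _ h => ⟨h.1.symm, h.2.imp fun _ h' => ⟨h'.2, h'.1⟩⟩⟩
       loopless := ⟨fun _ h => h.1 rfl⟩ }, fun u v => Iff.rfl⟩
  obtain ⟨f, hf⟩ : ∃ f : Fin m → ℕ, ∀ v, f v = (K - δ (top v)) * m + v := ⟨_, fun v => rfl⟩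
  have hfle : ∀ v w, f v < f w → δ (top w) ≤ δ (top v) := by
    intro v w hvw
    rw [hf, hf] at hvw
    by_contra hlt
    push Not at hlt
    have e1 := hK (top w)
    have e2 : K - δ (top w) + 1 ≤ K - δ (top v) := by omega
    have e3 : (K - δ (top w) + 1) * m ≤ (K - δ (top v)) * m := Nat.mul_le_mul_right _ e2
    have e4 := w.2
    rw [Nat.add_mul, one_mul] at e3
    omega
  have hup : ∀ v, ∀ w ∈ upper H f v, w ∈ B (top v) ∧ w ≠ v := by
    rintro v w ⟨hadj, hlt⟩
    rw [hH] at hadj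
    obtain ⟨hne, i, hiv, hiw⟩ := hadj
    refine ⟨?_, hne.symm⟩
    exact helly_TDC T r π δ h1 h2 h3 {i | v ∈ B i} {i | w ∈ B i} (hsub v) (hsub w) (top v)
      (top w) (htop1 v) (htop1 w) (htop2 v) (htop2 w) (hfle v w hlt) i hiv hiw
  refine ⟨H, f, ?_, ⟨?_, ?_, ?_⟩⟩
  · intro u v huv
    rw [hH]
    exact ⟨huv.ne, he u v huv⟩
  · intro v w hvw
    rw [hf, hf] at hvw
    have e1 : ((K - δ (top v)) * m + v) % m = v := by
      rw [add_comm, Nat.add_mul_mod_self_right, Nat.mod_eq_of_lt v.2]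
    have e2 : ((K - δ (top w)) * m + w) % m = w := by
      rw [add_comm, Nat.add_mul_mod_self_right, Nat.mod_eq_of_lt w.2]
    rw [hvw, e2] at e1
    exact Fin.ext e1.symm
  · intro v u hu w hw huw
    rw [hH]
    exact ⟨huw, top v, (hup v u hu).1, (hup v w hw).1⟩
  · intro v
    have e1 : upper H f v ⊆ (((B (top v)).erase v : Finset (Fin m)) : Set (Fin m)) := by
      intro w hw
      rw [Finset.mem_coe, Finset.mem_erase]
      exact ⟨(hup v w hw).2, (hup v w hw).1⟩
    have e2 := Set.ncard_le_ncard e1 (Finset.finite_toSet _)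
    rw [Set.ncard_coe_finset, Finset.card_erase_of_mem (htop1 v)] at e2
    have e3 := hcard (top v)
    omega

end Pool.Agent.H55.ER
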