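import Pool.Agent.H48.ER.Targets

set_option autoImplicit false

open Pool.Agent.H48.ER

namespace Pool.Agent.H55.ER

/-- adjacency in the subgraph of a walk -/
theorem sub_HNP {V : Type} {G : SimpleGraph V} {x y : V} (p : G.Walk x y) {u v : V}
    (h : p.toSubgraph.Adj u v) : u ∈ p.support ∧ v ∈ p.support := by
  have h1 := p.toSubgraph.edge_vert h
  have h2 := p.toSubgraph.edge_vert h.symm
  rw [SimpleGraph.Walk.mem_verts_toSubgraph] at h1 h2
  exact ⟨h1, h2⟩

theorem pf_HNP (hWLK : T_WLK) : T_HNP := by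
  intro m G hG a b n P hP hodd
  apply hG
  have hw : ∀ i, ∃ p : G.Walk (a i) (b i), p.IsPath ∧ p.length = n i ∧
      (∀ v, v ∈ p.support ↔ v ∈ P i) ∧
      ∀ u ∈ P i, ∀ v ∈ P i, p.toSubgraph.Adj u v ↔ G.Adj u v := by
    intro i
    obtain ⟨p, h1, h2, h3, -, h4⟩ := (hWLK (Fin m) G (a i) (b i)).2 (n i) (P i) (hP.ip i)
    exact ⟨p, h1, h2, h3, h4⟩
  choose p hp1 hp2 hp3 hp4 using hw
  have ha : ∀ i, a i ∈ P i := fun i => hP.a_mem i
  have hb : ∀ i, b i ∈ P i := fun i => hP.b_mem i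
  have hdj : ∀ i j, i ≠ j → ∀ w, w ∈ P i → w ∉ P j := fun i j hij w h1 h2 =>
    Set.disjoint_left.1 (hP.dis i j hij) h1 h2
  have hin : ∀ i j u v, (p i).toSubgraph.Adj u v → u ∈ P j → i = j := by
    intro i j u v h1 h2
    by_contra hij
    exact hdj i j hij u ((hp3 i u).1 (sub_HNP _ h1).1) h2
  have hin' : ∀ i j u v, (p i).toSubgraph.Adj u v → v ∈ P j → i = j := by
    intro i j u v h1 h2
    by_contra hij
    exact hdj i j hij v ((hp3 i v).1 (sub_HNP _ h1).2) h2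
  have hanj : ∀ i j u, u = a i → u ∈ P j → i = j := by
    intro i j u h1 h2
    by_contra hij
    exact hdj i j hij u (h1 ▸ ha i) h2
  have hbnj : ∀ i j u, u = b i → u ∈ P j → i = j := by
    intro i j u h1 h2
    by_contra hij
    exact hdj i j hij u (h1 ▸ hb i) h2
  have key : ∀ i j : Fin 3, ∀ u ∈ P i, ∀ v ∈ P j, G.Adj u v ↔
      ((∃ l, (p l).toSubgraph.Adj u v) ∨ (u ≠ v ∧ (∃ l, u = a l) ∧ ∃ l, v = a l) ∨
        (u ≠ v ∧ (∃ l, u = b l) ∧ ∃ l, v = b l)) := by
    intro i j u hu v hv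
    by_cases hij : i = j
    · subst hij
      constructor
      · intro h
        exact Or.inl ⟨i, (hp4 i u hu v hv).2 h⟩
      · rintro (⟨l, h⟩ | ⟨hne, ⟨l, hl⟩, l', hl'⟩ | ⟨hne, ⟨l, hl⟩, l', hl'⟩)
        · exact h.adj_sub
        · exfalso
          have e1 := hanj l i u hl hu
          have e2 := hanj l' i v hl' hv
          apply hne
          rw [hl, hl', e1, e2]
        · exfalso
          have e1 := hbnj l i u hl hu
          have e2 := hbnj l' i v hl' hv
          apply hne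
          rw [hl, hl', e1, e2]
    · rw [hP.adj i j hij u hu v hv]
      have hne : u ≠ v := by
        rintro rfl
        exact hdj i j hij u hu hv
      constructor
      · rintro (⟨h1, h2⟩ | ⟨h1, h2⟩)
        · exact Or.inr (Or.inl ⟨hne, ⟨i, h1⟩, j, h2⟩)
        · exact Or.inr (Or.inr ⟨hne, ⟨i, h1⟩, j, h2⟩)
      · rintro (⟨l, h⟩ | ⟨-, ⟨l, hl⟩, l', hl'⟩ | ⟨-, ⟨l, hl⟩, l', hl'⟩)
        · exfalso
          exact hij ((hin l i u v h hu).symm.trans (hin' l j u v h hv))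
        · have e1 := hanj l i u hl hu
          have e2 := hanj l' j v hl' hv
          rw [e1] at hl
          rw [e2] at hl'
          exact Or.inl ⟨hl, hl'⟩
        · have e1 := hbnj l i u hl hu
          have e2 := hbnj l' j v hl' hv
          rw [e1] at hl
          rw [e2] at hl'
          exact Or.inr ⟨hl, hl'⟩
  have hmod : ∀ i, (p i).length % 2 = 1 := by
    intro i
    rw [hp2]
    exact Nat.odd_iff.1 (hodd i)
  have hsd : ∀ i j, i ≠ j → ∀ w, w ∈ (p i).support → w ∉ (p j).support := by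
    intro i j hij w h1 h2
    exact hdj i j hij w ((hp3 i w).1 h1) ((hp3 j w).1 h2)
  refine ⟨a 0, a 1, a 2, b 0, b 1, b 2, p 0, p 1, p 2, hp1 0, hp1 1, hp1 2, hmod 0, hmod 1, hmod 2,
    hsd 0 1 (by decide), hsd 0 2 (by decide), hsd 1 2 (by decide), ?_⟩
  intro u v hu hv
  have hu' : ∃ i, u ∈ P i := by
    rcases hu with h | h | h
    · exact ⟨0, (hp3 0 u).1 h⟩
    · exact ⟨1, (hp3 1 u).1 h⟩
    · exact ⟨2, (hp3 2 u).1 h⟩
  have hv' : ∃ i, v ∈ P i := by
    rcases hv with h | h | h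
    · exact ⟨0, (hp3 0 v).1 h⟩
    · exact ⟨1, (hp3 1 v).1 h⟩
    · exact ⟨2, (hp3 2 v).1 h⟩
  obtain ⟨i, hi⟩ := hu'
  obtain ⟨j, hj⟩ := hv'
  rw [key i j u hi v hj]
  have e3 : ∀ Q : Fin 3 → Prop, (∃ l, Q l) ↔ (Q 0 ∨ Q 1 ∨ Q 2) := by
    intro Q
    constructor
    · rintro ⟨l, hl⟩
      fin_cases l
      · exact Or.inl hl
      · exact Or.inr (Or.inl hl)
      · exact Or.inr (Or.inr hl)
    · rintro (h | h | h)
      · exact ⟨0, h⟩
      · exact ⟨1, h⟩
      · exact ⟨2, h⟩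
  rw [e3, e3, e3, e3, e3]
  constructor
  · rintro ((h | h | h) | h | h)
    · exact Or.inl h
    · exact Or.inr (Or.inl h)
    · exact Or.inr (Or.inr (Or.inl h))
    · exact Or.inr (Or.inr (Or.inr (Or.inl h)))
    · exact Or.inr (Or.inr (Or.inr (Or.inr h)))
  · rintro (h | h | h | h | h)
    · exact Or.inl (Or.inl h)
    · exact Or.inl (Or.inr (Or.inl h))
    · exact Or.inl (Or.inr (Or.inr h))
    · exact Or.inr (Or.inl h)
    · exact Or.inr (Or.inr h)

end Pool.Agent.H55.ER
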